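import Mathlib

/-! Order 3^6, kappa = 3, delta <> 0: interface of the END (note 5511).
`V` slices, `X` points, `D` light functionals, `D1` those which are constant on all slices. -/

namespace H40.S36

variable {V X D : Type*}

/-- number of points of the slice `v` with `x = c` -/
def fib (S : V → Finset X) (ev : D → X → ZMod 3) (v : V) (x : D) (c : ZMod 3) : ℕ :=
  ((S v).filter (fun p => ev x p = c)).card

/-- number of points of the slice `v` with `x = c`, `y = d` -/
def cell (S : V → Finset X) (ev : D → X → ZMod 3) (v : V) (x y : D) (c d : ZMod 3) : ℕ :=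
  ((S v).filter (fun p => ev x p = c ∧ ev y p = d)).card

/-- the row of `x` is not zero -/
def NZ (Φ : D → D → D → D → ZMod 3) (x : D) : Prop := ∃ y z, Φ x x y z ≠ 0

/-- `y` is in the radical of the row of `x` -/
def Rad (Φ : D → D → D → D → ZMod 3) (x y : D) : Prop := ∀ z, Φ x x y z = 0

/-- the facts used by the END, for all `t` -/
structure Hyp [Fintype V] [AddCommGroup D] (S : V → Finset X) (ev : D → X → ZMod 3)
    (Φ : D → D → D → D → ZMod 3) (D1 : AddSubgroup D) : Prop where
  exp3 : ∀ x : D, x + x + x = 0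
  ev_add : ∀ x y p, ev (x + y) p = ev x p + ev y p
  add1 : ∀ a b c d e, Φ (a + b) c d e = Φ a c d e + Φ b c d e
  s12 : ∀ a b c d, Φ a b c d = Φ b a c d
  s23 : ∀ a b c d, Φ a b c d = Φ a c b d
  s34 : ∀ a b c d, Φ a b c d = Φ a b d c
  cube : ∀ a d, Φ a a a d = 0
  /-- fibres of light functionals have sizes divisible by 3 -/
  fib3 : ∀ v x c, 3 ∣ fib S ev v x c
  /-- never three points (I1) -/
  fibne : ∀ v x c, fib S ev v x c ≠ 3
  /-- the nine cells of a pair with `delta = 0` -/
  cell3 : ∀ v x y c d, Φ x x y y = 0 → 3 ∣ cell S ev v x y c d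
  /-- no empty fibre if the row is not zero -/
  empt : ∀ v x c, NZ Φ x → fib S ev v x c ≠ 0
  /-- a six-point fibre of a nonzero row (E4): the constant functionals are the radical -/
  six : ∀ v x c, NZ Φ x → fib S ev v x c = 6 →
    ∀ y, (∃ d, ∀ p ∈ S v, ev x p = c → ev y p = d) ↔ Rad Φ x y
  /-- the radical of a nonzero row is a line modulo `D1` (only existence is used) -/
  rad : ∀ x, NZ Φ x → ∃ m, Rad Φ x m ∧ m ∉ D1 ∧ m + x ∉ D1 ∧ m - x ∉ D1
  nz1 : ∀ x, NZ Φ x → x ∉ D1
  /-- a zero row has at most two six-point fibres in all slices together (collisions) -/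
  six0 : ∀ x, x ∉ D1 → ¬ NZ Φ x →
    ((Finset.univ : Finset (V × ZMod 3)).filter (fun q => fib S ev q.1 x q.2 = 6)).card ≤ 2

end H40.S36
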