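import Pool.Agent.H40.S36.Fin

/-! The finite checks as statements on nine natural numbers. -/

namespace H40.S36

lemma cl_rot {p q r : ℕ} (h : cl p q r) : cl r p q := by
  unfold cl at *
  exact ⟨by omega, fun hs => by have := h.2 (by omega); tauto⟩

lemma op_rot {p q r : ℕ} (h : op p q r) : op r p q := by
  unfold op at *
  exact ⟨by omega, fun hs => by have := h.2 (by omega); tauto⟩

lemma ze_rot {p q r : ℕ} (h : ze p q r) : ze r p q := by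
  unfold ze at *
  omega

lemma all3_iff (s t u : ℕ) : all3 s t u = true ↔ s = 3 ∧ t = 3 ∧ u = 3 := by
  simp only [all3, Bool.and_eq_true, decide_eq_true_eq, and_assoc]

variable {a b c d e f g h i : ℕ}

lemma useA (hn : a + b + c + d + e + f + g + h + i = 8)
    (h1 : cl a b c ∧ cl d e f ∧ cl g h i) (h2 : cl a d g ∧ cl b e h ∧ cl c f i)
    (h3 : cl a f h ∧ cl b d i ∧ cl c e g) (h4 : cl a e i ∧ cl b f g ∧ cl c d h) : False := by
  have h5 := chk_spec 8 PA chkA a b c d e f g h i hn h1.1 h1.2.1 h1.2.2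
  have : allcl a b c d e f g h i = true := by
    simp only [allcl, Bool.and_eq_true, clB_iff]
    exact ⟨⟨⟨⟨⟨⟨⟨⟨h2.1, h2.2.1⟩, h2.2.2⟩, h3.1⟩, h3.2.1⟩, h3.2.2⟩, h4.1⟩, cl_rot (cl_rot h4.2.2)⟩,
      cl_rot h4.2.1⟩
  simp [PA, this] at h5

lemma useB (hn : a + b + c + d + e + f + g + h + i = 8)
    (h1 : cl a b c ∧ cl d e f ∧ cl g h i) (h2 : op a d g ∧ op b e h ∧ op c f i)
    (h3 : op a f h ∧ op b d i ∧ op c e g) (h4 : op a e i ∧ op b f g ∧ op c d h) :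
    n2 (a+b+c) (d+e+f) (g+h+i) = 1 ∧ n2 (a+d+g) (b+e+h) (c+f+i) = 2 := by
  have h5 := chk_spec 8 PB chkB a b c d e f g h i hn h1.1 h1.2.1 h1.2.2
  have : allop a b c d e f g h i = true := by
    simp only [allop, Bool.and_eq_true, opB_iff]
    exact ⟨⟨⟨⟨⟨⟨⟨⟨h2.1, h2.2.1⟩, h2.2.2⟩, h3.1⟩, h3.2.1⟩, h3.2.2⟩, h4.1⟩, op_rot (op_rot h4.2.2)⟩,
      op_rot h4.2.1⟩
  simpa [PB, this] using h5

lemma useC (hn : a + b + c + d + e + f + g + h + i = 9)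
    (h1 : cl a b c ∧ cl d e f ∧ cl g h i) (h2 : cl a d g ∧ cl b e h ∧ cl c f i)
    (h3 : cl a f h ∧ cl b d i ∧ cl c e g) (h4 : cl a e i ∧ cl b f g ∧ cl c d h) :
    a + b + c = 3 ∧ d + e + f = 3 ∧ g + h + i = 3 := by
  have h5 := chk_spec 9 PC chkC a b c d e f g h i hn h1.1 h1.2.1 h1.2.2
  have : allcl a b c d e f g h i = true := by
    simp only [allcl, Bool.and_eq_true, clB_iff]
    exact ⟨⟨⟨⟨⟨⟨⟨⟨h2.1, h2.2.1⟩, h2.2.2⟩, h3.1⟩, h3.2.1⟩, h3.2.2⟩, h4.1⟩, cl_rot (cl_rot h4.2.2)⟩,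
      cl_rot h4.2.1⟩
  rw [← all3_iff]
  simpa [PC, this] using h5

lemma useD (hn : a + b + c + d + e + f + g + h + i = 9)
    (h1 : cl a b c ∧ cl d e f ∧ cl g h i) (h2 : op a d g ∧ op b e h ∧ op c f i)
    (h3 : op a f h ∧ op b d i ∧ op c e g) (h4 : op a e i ∧ op b f g ∧ op c d h) :
    cost3 (a+b+c) (d+e+f) (g+h+i) ≤ 2 ∧ (cost3 (a+b+c) (d+e+f) (g+h+i) = 2 →
      cost3 (a+d+g) (b+e+h) (c+f+i) + cost3 (a+f+h) (b+d+i) (c+e+g) +
      cost3 (a+e+i) (b+f+g) (c+d+h) = 10) := by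
  have h5 := chk_spec 9 PD chkD a b c d e f g h i hn h1.1 h1.2.1 h1.2.2
  have : allop a b c d e f g h i = true := by
    simp only [allop, Bool.and_eq_true, opB_iff]
    exact ⟨⟨⟨⟨⟨⟨⟨⟨h2.1, h2.2.1⟩, h2.2.2⟩, h3.1⟩, h3.2.1⟩, h3.2.2⟩, h4.1⟩, op_rot (op_rot h4.2.2)⟩,
      op_rot h4.2.1⟩
  have e1 : cost3 (a+e+i) (d+h+c) (g+b+f) = cost3 (a+e+i) (b+f+g) (c+d+h) := by
    unfold cost3
    have r1 : d + h + c = c + d + h := by ring
    have r2 : g + b + f = b + f + g := by ring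
    rw [r1, r2]; ring
  simp only [PD, this, Bool.not_true, Bool.false_or, Bool.and_eq_true, decide_eq_true_eq,
    Bool.or_eq_true, e1] at h5
  refine ⟨h5.1, fun h6 => ?_⟩
  rcases h5.2 with h7 | h7
  · exact absurd h6 h7
  · exact h7

lemma useE (hn : a + b + c + d + e + f + g + h + i = 9)
    (h1 : cl a b c ∧ cl d e f ∧ cl g h i) (h2 : ze a d g ∧ ze b e h ∧ ze c f i)
    (h3 : cl a f h ∧ cl b d i ∧ cl c e g) (h4 : cl a e i ∧ cl b f g ∧ cl c d h)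
    (h9 : a + d + g = 3 ∧ b + e + h = 3 ∧ c + f + i = 3) :
    a + b + c = 3 ∧ d + e + f = 3 ∧ g + h + i = 3 := by
  have h5 := chk_spec 9 PE chkE a b c d e f g h i hn h1.1 h1.2.1 h1.2.2
  have h6 : (zeB a d g && zeB b e h && zeB c f i &&
    clB a f h && clB b d i && clB c e g && clB a e i && clB d h c && clB g b f) = true := by
    simp only [Bool.and_eq_true, clB_iff, zeB_iff]
    exact ⟨⟨⟨⟨⟨⟨⟨⟨h2.1, h2.2.1⟩, h2.2.2⟩, h3.1⟩, h3.2.1⟩, h3.2.2⟩, h4.1⟩, cl_rot (cl_rot h4.2.2)⟩,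
      cl_rot h4.2.1⟩
  rw [← all3_iff] at h9 ⊢
  simp only [PE, h6, h9, Bool.not_true, Bool.false_or] at h5
  exact h5

lemma useF (hn : a + b + c + d + e + f + g + h + i = 9)
    (h1 : cl a b c ∧ cl d e f ∧ cl g h i) (h2 : ze a d g ∧ ze b e h ∧ ze c f i)
    (h3 : ze a f h ∧ ze b d i ∧ ze c e g) (h4 : cl a e i ∧ cl b f g ∧ cl c d h) :
    ((a + d + g = 3 ∧ b + e + h = 3 ∧ c + f + i = 3) ∧
      (a + f + h = 3 ∧ b + d + i = 3 ∧ c + e + g = 3) →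
      a + b + c = 3 ∧ d + e + f = 3 ∧ g + h + i = 3) ∧
    ((a + d + g = 3 ∧ b + e + h = 3 ∧ c + f + i = 3) ∨
      (a + f + h = 3 ∧ b + d + i = 3 ∧ c + e + g = 3) →
      cost3 (a+b+c) (d+e+f) (g+h+i) ≤ 2) := by
  have h5 := chk_spec 9 PF chkF a b c d e f g h i hn h1.1 h1.2.1 h1.2.2
  have h6 : (zeB a d g && zeB b e h && zeB c f i &&
    zeB a f h && zeB b d i && zeB c e g && clB a e i && clB d h c && clB g b f) = true := by
    simp only [Bool.and_eq_true, clB_iff, zeB_iff]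
    exact ⟨⟨⟨⟨⟨⟨⟨⟨h2.1, h2.2.1⟩, h2.2.2⟩, h3.1⟩, h3.2.1⟩, h3.2.2⟩, h4.1⟩, cl_rot (cl_rot h4.2.2)⟩,
      cl_rot h4.2.1⟩
  simp only [PF, h6, Bool.not_true, Bool.false_or, Bool.and_eq_true, Bool.or_eq_true,
    Bool.not_eq_true'] at h5
  rw [← all3_iff, ← all3_iff, ← all3_iff]
  constructor
  · rintro ⟨h7, h8⟩
    rcases h5.1 with h9 | h9
    · rw [h7, h8] at h9; simp at h9
    · exact h9
  · intro h7
    rcases h5.2 with h9 | h9
    · rcases h7 with h7 | h7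
      · rw [h7] at h9; simp at h9
      · rw [h7] at h9; simp at h9
    · exact of_decide_eq_true h9

end H40.S36
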