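import Pool.Agent.H40.S36.Cost
import Pool.Agent.H40.S36.Use

/-! The END of the order 3^6, kappa = 3 (note 5511): no nonzero row. -/

namespace H40.S36

open Finset

variable {V X D : Type*} [Fintype V] [AddCommGroup D] {S : V → Finset X} {ev : D → X → ZMod 3}
  {Φ : D → D → D → D → ZMod 3} {D1 : AddSubgroup D}

lemma rad_add (h : Hyp S ev Φ D1) {l m : D} (hm : Rad Φ l m) (hc : Rad Φ m l) :
    Rad Φ (m + l) l := fun z => by rw [row_add h hm]; exact hc z

lemma rad_sub (h : Hyp S ev Φ D1) {l m : D} (hm : Rad Φ l m) (hc : Rad Φ m l) :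
    Rad Φ (m - l) l := fun z => by rw [row_sub h hm]; exact hc z

lemma not_rad_add (h : Hyp S ev Φ D1) {l m : D} (hm : Rad Φ l m) (hc : ¬ Rad Φ m l) :
    ¬ Rad Φ (m + l) l := fun h1 => hc fun z => by rw [← row_add h hm]; exact h1 z

lemma not_rad_sub (h : Hyp S ev Φ D1) {l m : D} (hm : Rad Φ l m) (hc : ¬ Rad Φ m l) :
    ¬ Rad Φ (m - l) l := fun h1 => hc fun z => by rw [← row_sub h hm]; exact h1 z

lemma nz_of_not_rad {x y : D} (hx : ¬ Rad Φ x y) : NZ Φ x := by
  unfold Rad at hx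
  push Not at hx
  obtain ⟨z, hz⟩ := hx
  exact ⟨y, z, hz⟩

lemma cost3_333 : cost3 3 3 3 = 0 := by decide

lemma nine27 {a b c d e f g hh i : ℕ}
    (hs : 27 = 3 * (a + b + c) + 3 * (d + e + f) + 3 * (g + hh + i)) :
    a + b + c + d + e + f + g + hh + i = 9 := by omega

lemma nine24 {a b c d e f g hh i : ℕ}
    (hs : 24 = 3 * (a + b + c) + 3 * (d + e + f) + 3 * (g + hh + i)) :
    a + b + c + d + e + f + g + hh + i = 8 := by omega

lemma aux24 {f0 f1 f2 a b e : ℕ} (ha : f0 = 3 * a) (hb : f1 = 3 * b) (he : f2 = 3 * e)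
    (hs : 24 = f0 + f1 + f2) (a0 : f0 ≠ 6) (a1 : f1 ≠ 6) (a2 : f2 ≠ 6)
    (c0 : f0 ≠ 3) (c1 : f1 ≠ 3) (c2 : f2 ≠ 3) : 11 ≤ cost3 a b e :=
  cost3_24 a b e (by omega) (by omega) (by omega)

lemma aux18 {a b c : ℕ} (h24 : 18 ≤ a) (h : a - b ≤ c) (hB : b ≤ 2) : 16 ≤ c := by omega

lemma aux78 {a x y : ℕ} (h1 : 16 ≤ a) (h2 : a * 11 ≤ x) (h3 : x ≤ y) (h4 : y ≤ 78) : False := by
  omega

lemma third_eq (k : ℕ) : 3 * k / 3 = k := by omega

lemma third9 {x k : ℕ} (h1 : x = 3 * k) (h2 : x = 9) : k = 3 := by omega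

/-- costs read off the thirds -/
lemma cst_of (v : V) (x : D) {p q r : ℕ} (h0 : fib S ev v x 0 = 3 * p)
    (h1 : fib S ev v x 1 = 3 * q) (h2 : fib S ev v x 2 = 3 * r) :
    cst S ev v x = cost3 p q r := by
  unfold cst
  rw [h0, h1, h2]
  have e1 : 3 * p / 3 = p := by omega
  have e2 : 3 * q / 3 = q := by omega
  have e3 : 3 * r / 3 = r := by omega
  rw [e1, e2, e3]

/-- closed radical line without zero rows: cost zero -/
lemma closed0 (h : Hyp S ev Φ D1) (h27 : ∀ v, (S v).card = 27) {l m : D} (hl : NZ Φ l)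
    (hm : Rad Φ l m) (hc : Rad Φ m l) (h1 : NZ Φ m) (h2 : NZ Φ (m + l)) (h3 : NZ Φ (m - l))
    (v : V) : cst S ev v l = 0 := by
  obtain ⟨a, b, c, d, e, f, g, hh, i, fl, _, _, _, t1, t2, t3, t4⟩ := arr h hm v
  have hs := card_eq S ev v l
  rw [h27 v, fl.1, fl.2.1, fl.2.2] at hs
  have := useC (nine27 hs) (t1.hcl hl hm) (t2.hcl h1 hc) (t3.hcl h2 (rad_add h hm hc))
    (t4.hcl h3 (rad_sub h hm hc))
  rw [cst_of v l fl.1 fl.2.1 fl.2.2, this.1, this.2.1, this.2.2, cost3_333]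

/-- open radical line -/
lemma open0 (h : Hyp S ev Φ D1) (h27 : ∀ v, (S v).card = 27) {l m : D} (hl : NZ Φ l)
    (hm : Rad Φ l m) (hc : ¬ Rad Φ m l) (v : V) : cst S ev v l ≤ 2 ∧ (cst S ev v l = 2 →
      cst S ev v m + cst S ev v (m + l) + cst S ev v (m - l) = 10) := by
  obtain ⟨a, b, c, d, e, f, g, hh, i, fl, fm, fa, fs, t1, t2, t3, t4⟩ := arr h hm v
  have hs := card_eq S ev v l
  rw [h27 v, fl.1, fl.2.1, fl.2.2] at hs
  have := useD (nine27 hs) (t1.hcl hl hm) (t2.hop (nz_of_not_rad hc) hc)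
    (t3.hop (nz_of_not_rad (not_rad_add h hm hc)) (not_rad_add h hm hc))
    (t4.hop (nz_of_not_rad (not_rad_sub h hm hc)) (not_rad_sub h hm hc))
  rw [cst_of v l fl.1 fl.2.1 fl.2.2, cst_of v m fm.1 fm.2.1 fm.2.2,
    cst_of v (m + l) fa.1 fa.2.1 fa.2.2, cst_of v (m - l) fs.1 fs.2.1 fs.2.2]
  exact this

/-- cost of a nonzero row is at most six -/
lemma cst_le6 (h : Hyp S ev Φ D1) (h27 : ∀ v, (S v).card = 27) {l : D} (hl : NZ Φ l) (v : V) :
    cst S ev v l ≤ 6 := by
  obtain ⟨a, ha⟩ := h.fib3 v l 0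
  obtain ⟨b, hb⟩ := h.fib3 v l 1
  obtain ⟨e, he⟩ := h.fib3 v l 2
  have hs := card_eq S ev v l
  rw [h27 v] at hs
  have a0 := h.empt v l 0 hl
  have a1 := h.empt v l 1 hl
  have a2 := h.empt v l 2 hl
  have c0 := h.fibne v l 0
  have c1 := h.fibne v l 1
  have c2 := h.fibne v l 2
  rw [cst_of v l ha hb he]
  exact cost3_le6 a b e (by omega) (by omega) (by omega) (by omega)

/-- closed radical line with exactly one zero row `m` -/
lemma closed1 (h : Hyp S ev Φ D1) (h27 : ∀ v, (S v).card = 27) {l m : D} (hl : NZ Φ l)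
    (hm : Rad Φ l m) (hc : Rad Φ m l) (h2 : NZ Φ (m + l)) (h3 : NZ Φ (m - l))
    (v : V) (hv : v ∉ Wn S ev m) : cst S ev v l = 0 := by
  obtain ⟨a, b, c, d, e, f, g, hh, i, fl, fm, _, _, t1, t2, t3, t4⟩ := arr h hm v
  have hs := card_eq S ev v l
  rw [h27 v, fl.1, fl.2.1, fl.2.2] at hs
  rw [mem_Wn, not_not] at hv
  have := useE (nine27 hs) (t1.hcl hl hm) t2.hze (t3.hcl h2 (rad_add h hm hc))
    (t4.hcl h3 (rad_sub h hm hc)) ⟨third9 fm.1 hv.1, third9 fm.2.1 hv.2.1, third9 fm.2.2 hv.2.2⟩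
  rw [cst_of v l fl.1 fl.2.1 fl.2.2, this.1, this.2.1, this.2.2, cost3_333]

/-- closed radical line with the zero rows `m`, `m + l` -/
lemma closed2 (h : Hyp S ev Φ D1) (h27 : ∀ v, (S v).card = 27) {l m : D} (hl : NZ Φ l)
    (hm : Rad Φ l m) (hc : Rad Φ m l) (h3 : NZ Φ (m - l)) (v : V) :
    (v ∉ Wn S ev m → v ∉ Wn S ev (m + l) → cst S ev v l = 0) ∧
    (v ∉ Wn S ev m ∨ v ∉ Wn S ev (m + l) → cst S ev v l ≤ 2) := by
  obtain ⟨a, b, c, d, e, f, g, hh, i, fl, fm, fa, _, t1, t2, t3, t4⟩ := arr h hm v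
  have hs := card_eq S ev v l
  rw [h27 v, fl.1, fl.2.1, fl.2.2] at hs
  rw [mem_Wn, not_not, mem_Wn, not_not]
  have := useF (nine27 hs) (t1.hcl hl hm) t2.hze t3.hze (t4.hcl h3 (rad_sub h hm hc))
  rw [cst_of v l fl.1 fl.2.1 fl.2.2]
  constructor
  · intro h5 h6
    have h7 := this.1 ⟨⟨third9 fm.1 h5.1, third9 fm.2.1 h5.2.1, third9 fm.2.2 h5.2.2⟩,
      ⟨third9 fa.1 h6.1, third9 fa.2.1 h6.2.1, third9 fa.2.2 h6.2.2⟩⟩
    rw [h7.1, h7.2.1, h7.2.2, cost3_333]
  · intro h5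
    apply this.2
    rcases h5 with h5 | h5
    · left; exact ⟨third9 fm.1 h5.1, third9 fm.2.1 h5.2.1, third9 fm.2.2 h5.2.2⟩
    · right; exact ⟨third9 fa.1 h5.1, third9 fa.2.1 h5.2.1, third9 fa.2.2 h5.2.2⟩

/-- sum over the slices, bound by an indicator -/
lemma sum_ind_le (W : Finset V) (k : ℕ) (f : V → ℕ) (hf : ∀ v, v ∉ W → f v = 0)
    (hk : ∀ v, f v ≤ k) : ∑ v, f v ≤ k * W.card := by
  classical
  have h1 : ∑ v, f v = ∑ v ∈ W, f v := by
    symm
    apply Finset.sum_subset (Finset.subset_univ W)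
    intro v _ hv
    exact hf v hv
  rw [h1]
  have := Finset.sum_le_card_nsmul W f k (fun v _ => hk v)
  rw [smul_eq_mul, mul_comm] at this
  exact this

lemma nz_neg (h : Hyp S ev Φ D1) (x : D) : NZ Φ (-x) ↔ NZ Φ x := by
  unfold NZ
  constructor
  · rintro ⟨y, z, hz⟩
    refine ⟨y, z, fun h0 => hz ?_⟩
    rw [phi_neg1 h, neg2 h, h0]; ring
  · rintro ⟨y, z, hz⟩
    refine ⟨y, z, fun h0 => hz ?_⟩
    rw [phi_neg1 h, neg2 h, neg_neg] at h0
    exact h0

/-- closed case with a zero row `m` -/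
lemma closed_zero (h : Hyp S ev Φ D1) (h27 : ∀ v, (S v).card = 27)
    (hcst : ∀ x, x ∉ D1 → ∑ v, cst S ev v x = 54) {l m : D} (hl : NZ Φ l)
    (hm : Rad Φ l m) (hc : Rad Φ m l) (d0 : m ∉ D1) (d1 : m + l ∉ D1) (d2 : m - l ∉ D1)
    (hz : ¬ NZ Φ m) : False := by
  classical
  have hlD := h.nz1 l hl
  have two : ∀ l' : D, NZ Φ l' → Rad Φ l' m → Rad Φ m l' → m + l' ∉ D1 → ¬ NZ Φ (m + l') →
      NZ Φ (m - l') → False := by
    intro l' hl' hm' hc' dd hz' hn'
    have hW1 := card_Wn h h27 m d0 hz (hcst m d0)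
    have hW2 := card_Wn h h27 (m + l') dd hz' (hcst _ dd)
    have h54 := hcst l' (h.nz1 l' hl')
    have hb : ∀ v, cst S ev v l' ≤ 3 * (if v ∈ Wn S ev m then 1 else 0) +
        3 * (if v ∈ Wn S ev (m + l') then 1 else 0) := by
      intro v
      have hc2 := closed2 h h27 hl' hm' hc' hn' v
      have h6 := cst_le6 h h27 hl' v
      by_cases w1 : v ∈ Wn S ev m <;> by_cases w2 : v ∈ Wn S ev (m + l')
      · simp only [w1, w2, if_true]; omega
      · have := hc2.2 (Or.inr w2)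
        simp only [w1, w2, if_true, if_false]; omega
      · have := hc2.2 (Or.inl w1)
        simp only [w1, w2, if_true, if_false]; omega
      · have := hc2.1 w1 w2
        simp only [w1, w2, if_false]; omega
    have h7 : ∑ v, cst S ev v l' ≤ ∑ v, (3 * (if v ∈ Wn S ev m then 1 else 0) +
        3 * (if v ∈ Wn S ev (m + l') then 1 else 0)) := Finset.sum_le_sum (fun v _ => hb v)
    rw [Finset.sum_add_distrib, ← Finset.mul_sum, ← Finset.mul_sum, Finset.sum_ite_mem,
      Finset.sum_ite_mem, Finset.univ_inter, Finset.univ_inter, Finset.sum_const,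
      Finset.sum_const, smul_eq_mul, smul_eq_mul] at h7
    omega
  by_cases h2 : NZ Φ (m + l)
  · by_cases h3 : NZ Φ (m - l)
    · have hW1 := card_Wn h h27 m d0 hz (hcst m d0)
      have h54 := hcst l hlD
      have := sum_ind_le (Wn S ev m) 6 (fun v => cst S ev v l)
        (fun v hv => closed1 h h27 hl hm hc h2 h3 v hv) (fun v => cst_le6 h h27 hl v)
      have this' : ∑ v, cst S ev v l ≤ 6 * (Wn S ev m).card := this
      rw [h54] at this'
      omega
    · -- use `-l`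
      have e1 : m + -l = m - l := by abel
      have e2 : m - -l = m + l := by abel
      apply two (-l) ((nz_neg h l).2 hl)
      · intro z; rw [phi_neg1 h, neg2 h, hm z]; ring
      · intro z
        have : Φ m m (-l) z = Φ (-l) m m z := by rw [h.s23, h.s12]
        rw [this, phi_neg1 h, h.s12, h.s23, hc z]; ring
      · rw [e1]; exact d2
      · rw [e1]; exact h3
      · rw [e2]; exact h2
  · by_cases h3 : NZ Φ (m - l)
    · exact two l hl hm hc d1 h2 h3
    · -- all three zero: then the row of `l` is zero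
      obtain ⟨y, z, hyz⟩ := hl
      apply hyz
      have h4 := four_rows h l m y z
      unfold NZ at hz h2 h3
      push Not at hz h2 h3
      rw [hz, h2, h3] at h4
      simpa using h4

theorem end0 (h : Hyp S ev Φ D1)
    (hV : Fintype.card V = 27) (h27 : ∀ v, (S v).card = 27)
    (hsq : ∀ x, x ∉ D1 → ∑ v, ∑ c, fib S ev v x c ^ 2 = 7047)
    (x : D) (hx : NZ Φ x) : False := by
  classical
  have hcst : ∀ x, x ∉ D1 → ∑ v, cst S ev v x = 54 :=
    fun x hx => sum_cst27 h hV h27 x (hsq x hx)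
  obtain ⟨m, hm, d0, d1, d2⟩ := h.rad x hx
  have hxD := h.nz1 x hx
  by_cases hc : Rad Φ m x
  · by_cases n0 : NZ Φ m
    · by_cases n1 : NZ Φ (m + x)
      · by_cases n2 : NZ Φ (m - x)
        · have h54 := hcst x hxD
          have : ∑ v, cst S ev v x = 0 :=
            Finset.sum_eq_zero (fun v _ => closed0 h h27 hx hm hc n0 n1 n2 v)
          omega
        · -- the zero row is `m - x`
          have hm' : Rad Φ x (m - x) := by
            intro z
            have e : Φ x x (m - x) z = Φ (m - x) x x z := by rw [h.s23, h.s12]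
            rw [e, sub1 h, phi_mll h hm, h.cube]; ring
          have e2 : m - x - x = m + x := by
            have := h.exp3 x
            have : m - x - x = m + x - (x + x + x) := by abel
            rw [this, h.exp3]; abel
          exact closed_zero h h27 hcst hx hm' (rad_sub h hm hc) d2 (by rw [sub_add_cancel]; exact d0)
            (by rw [e2]; exact d1) n2
      · have hm' : Rad Φ x (m + x) := by
          intro z
          have e : Φ x x (m + x) z = Φ (m + x) x x z := by rw [h.s23, h.s12]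
          rw [e, h.add1, phi_mll h hm, h.cube]; ring
        have e2 : m + x + x = m - x := by
          have : m + x + x = m - x + (x + x + x) := by abel
          rw [this, h.exp3]; abel
        exact closed_zero h h27 hcst hx hm' (rad_add h hm hc) d1 (by rw [e2]; exact d2)
          (by rw [add_sub_cancel_right]; exact d0) n1
    · exact closed_zero h h27 hcst hx hm hc d0 d1 d2 n0
  · -- open
    have h54 := hcst x hxD
    have ho := fun v => open0 h h27 hx hm hc v
    have h2 : ∀ v, cst S ev v x = 2 := by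
      by_contra hcon
      push Not at hcon
      obtain ⟨w, hw⟩ := hcon
      have h3 : ∑ v, cst S ev v x < ∑ _v : V, 2 := by
        apply Finset.sum_lt_sum (fun v _ => (ho v).1)
        exact ⟨w, Finset.mem_univ w, lt_of_le_of_ne (ho w).1 hw⟩
      rw [Finset.sum_const, Finset.card_univ, hV, smul_eq_mul] at h3
      omega
    have h3 : ∑ v, (cst S ev v m + cst S ev v (m + x) + cst S ev v (m - x)) = ∑ _v : V, 10 :=
      Finset.sum_congr rfl (fun v _ => (ho v).2 (h2 v))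
    rw [Finset.sum_add_distrib, Finset.sum_add_distrib, hcst m d0, hcst _ d1, hcst _ d2,
      Finset.sum_const, Finset.card_univ, hV, smul_eq_mul] at h3
    omega

theorem end12 (h : Hyp S ev Φ D1)
    (hV : Fintype.card V = 27) (hS : ∑ v, (S v).card = 729)
    (h24 : 18 ≤ (Finset.univ.filter (fun v => (S v).card = 24)).card)
    (hsq : ∀ x, x ∉ D1 → ∑ v, ∑ c, fib S ev v x c ^ 2 ≤ 7263)
    (x : D) (hx : NZ Φ x) : False := by
  classical
  have hcst : ∀ x, x ∉ D1 → ∑ v, cst S ev v x ≤ 78 :=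
    fun x hx => sum_cst_le h hV hS x (hsq x hx)
  set A : Finset V := Finset.univ.filter (fun v => (S v).card = 24) with hA
  -- no zero rows
  have hnz : ∀ z, z ∉ D1 → NZ Φ z := by
    intro z hz
    by_contra hn
    have hB := card_B6 h z hz hn
    have h1 : 16 ≤ (A \ B6 S ev z).card := by
      exact aux18 h24 (Finset.le_card_sdiff (B6 S ev z) A) hB
    have h2 : ∑ v ∈ A \ B6 S ev z, 11 ≤ ∑ v ∈ A \ B6 S ev z, cst S ev v z := by
      apply Finset.sum_le_sum
      intro v hv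
      rw [Finset.mem_sdiff, mem_B6, hA, Finset.mem_filter] at hv
      obtain ⟨⟨_, hv24⟩, hv6⟩ := hv
      push Not at hv6
      obtain ⟨a, ha⟩ := h.fib3 v z 0
      obtain ⟨b, hb⟩ := h.fib3 v z 1
      obtain ⟨e, he⟩ := h.fib3 v z 2
      have hs := card_eq S ev v z
      rw [hv24] at hs
      rw [cst_of v z ha hb he]
      exact aux24 ha hb he hs (hv6 0) (hv6 1) (hv6 2) (h.fibne v z 0) (h.fibne v z 1)
        (h.fibne v z 2)
    have h3 : ∑ v ∈ A \ B6 S ev z, cst S ev v z ≤ ∑ v, cst S ev v z :=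
      Finset.sum_le_sum_of_subset (Finset.subset_univ _)
    rw [Finset.sum_const, smul_eq_mul] at h2
    exact aux78 h1 h2 h3 (hcst z hz)
  obtain ⟨v, hv⟩ : A.Nonempty := by
    rw [← Finset.card_pos]; exact lt_of_lt_of_le (by norm_num) h24
  have hv24 : (S v).card = 24 := (Finset.mem_filter.1 hv).2
  -- the pattern of an arbitrary row
  have key : ∀ y, NZ Φ y →
      n2 (fib S ev v y 0 / 3) (fib S ev v y 1 / 3) (fib S ev v y 2 / 3) = 1 ∧
      ∃ m, NZ Φ m ∧ n2 (fib S ev v m 0 / 3) (fib S ev v m 1 / 3) (fib S ev v m 2 / 3) = 2 := by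
    intro y hy
    obtain ⟨m, hm, d0, d1, d2⟩ := h.rad y hy
    obtain ⟨a, b, c, d, e, f, g, hh, i, fl, fm, fa, fs, t1, t2, t3, t4⟩ := arr h hm v
    have hs := card_eq S ev v y
    rw [hv24, fl.1, fl.2.1, fl.2.2] at hs
    by_cases hc : Rad Φ m y
    · exact (useA (nine24 hs) (t1.hcl hy hm) (t2.hcl (hnz m d0) hc)
        (t3.hcl (hnz _ d1) (rad_add h hm hc)) (t4.hcl (hnz _ d2) (rad_sub h hm hc))).elim
    · have := useB (nine24 hs) (t1.hcl hy hm) (t2.hop (nz_of_not_rad hc) hc)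
        (t3.hop (nz_of_not_rad (not_rad_add h hm hc)) (not_rad_add h hm hc))
        (t4.hop (nz_of_not_rad (not_rad_sub h hm hc)) (not_rad_sub h hm hc))
      refine ⟨?_, m, hnz m d0, ?_⟩
      · rw [fl.1, fl.2.1, fl.2.2, third_eq, third_eq, third_eq]; exact this.1
      · rw [fm.1, fm.2.1, fm.2.2, third_eq, third_eq, third_eq]; exact this.2
  obtain ⟨_, m, hm, h2⟩ := key x hx
  have h1 := (key m hm).1
  rw [h1] at h2
  exact absurd h2 (by decide)

end H40.S36
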