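import Mathlib

/-! Finite lemma on 3x3 arrays of natural numbers (order 3^6, kappa = 3).
`a b c / d e f / g h i`, the twelve lines in the four directions
rows, columns, `i + j`, `i - j`. -/

namespace H40.S36

/-- a line of sum at least two; if the sum is two, then all of it is in one cell -/
def cl (p q r : ℕ) : Prop := 2 ≤ p + q + r ∧ (p + q + r = 2 → p = 2 ∨ q = 2 ∨ r = 2)

/-- a line of sum at least two; if the sum is two, then it is not in one cell -/
def op (p q r : ℕ) : Prop := 2 ≤ p + q + r ∧ (p + q + r = 2 → ¬ (p = 2 ∨ q = 2 ∨ r = 2))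

/-- the sum of a line is not one -/
def ze (p q r : ℕ) : Prop := p + q + r ≠ 1

/-- cost of a fibre -/
def cost (s : ℕ) : ℕ := s * s + 9 - 6 * s

/-- cost of a direction -/
def cost3 (s t u : ℕ) : ℕ := cost s + cost t + cost u

def clB (p q r : ℕ) : Bool :=
  decide (2 ≤ p+q+r) && (!(decide (p+q+r = 2)) || (decide (p = 2) || decide (q = 2) || decide (r = 2)))
def opB (p q r : ℕ) : Bool :=
  decide (2 ≤ p+q+r) && (!(decide (p+q+r = 2)) || !(decide (p = 2) || decide (q = 2) || decide (r = 2)))
def zeB (p q r : ℕ) : Bool := !(decide (p+q+r = 1))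

lemma clB_iff (p q r : ℕ) : clB p q r = true ↔ cl p q r := by
  simp only [clB, cl, Bool.and_eq_true, Bool.or_eq_true, Bool.not_eq_true', decide_eq_true_eq,
    decide_eq_false_iff_not]
  tauto

lemma opB_iff (p q r : ℕ) : opB p q r = true ↔ op p q r := by
  simp only [opB, op, Bool.and_eq_true, Bool.or_eq_true, Bool.not_eq_true', decide_eq_true_eq,
    decide_eq_false_iff_not, Bool.or_eq_false_iff]
  tauto

lemma zeB_iff (p q r : ℕ) : zeB p q r = true ↔ ze p q r := by
  simp only [zeB, ze, Bool.not_eq_true', decide_eq_false_iff_not, ne_eq]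

def allUpTo (n : ℕ) (f : ℕ → Bool) : Bool := Nat.rec true (fun m ih => f m && ih) (n+1)

lemma allUpTo_spec (n : ℕ) (f : ℕ → Bool) (h : allUpTo n f = true) (m : ℕ) (hm : m ≤ n) :
    f m = true := by
  have key : ∀ N : ℕ, (Nat.rec true (fun m ih => f m && ih) N : Bool) = true →
      ∀ m < N, f m = true := by
    intro N
    induction N with
    | zero => intro _ m hm; omega
    | succ N ih =>
      intro h m hm
      simp only [Bool.and_eq_true] at h
      rcases Nat.lt_succ_iff_lt_or_eq.1 hm with h1 | h1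
      · exact ih h.2 m h1
      · rw [h1]; exact h.1
  exact key (n+1) h m (by omega)

/-- all arrays of sum `n` whose rows satisfy `clB` satisfy `P` -/
def chk (n : ℕ) (P : ℕ → ℕ → ℕ → ℕ → ℕ → ℕ → ℕ → ℕ → ℕ → Bool) : Bool :=
  allUpTo n fun a => allUpTo (n-a) fun b => allUpTo (n-a-b) fun c => !(clB a b c) ||
  allUpTo (n-a-b-c) fun d => allUpTo (n-a-b-c-d) fun e => allUpTo (n-a-b-c-d-e) fun f =>
  !(clB d e f) || allUpTo (n-a-b-c-d-e-f) fun g => allUpTo (n-a-b-c-d-e-f-g) fun h =>
    !(clB g h (n-a-b-c-d-e-f-g-h)) || P a b c d e f g h (n-a-b-c-d-e-f-g-h)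

lemma chk_spec (n : ℕ) (P : ℕ → ℕ → ℕ → ℕ → ℕ → ℕ → ℕ → ℕ → ℕ → Bool) (hP : chk n P = true)
    (a b c d e f g h i : ℕ) (hn : a + b + c + d + e + f + g + h + i = n)
    (r1 : cl a b c) (r2 : cl d e f) (r3 : cl g h i) :
    P a b c d e f g h i = true := by
  rw [← clB_iff] at r1 r2 r3
  have h1 := allUpTo_spec _ _ hP a (by omega)
  have h2 := allUpTo_spec _ _ h1 b (by omega)
  have h3 := allUpTo_spec _ _ h2 c (by omega)
  simp only [r1, Bool.not_true, Bool.false_or] at h3
  have h4 := allUpTo_spec _ _ h3 d (by omega)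
  have h5 := allUpTo_spec _ _ h4 e (by omega)
  have h6 := allUpTo_spec _ _ h5 f (by omega)
  simp only [r2, Bool.not_true, Bool.false_or] at h6
  have h7 := allUpTo_spec _ _ h6 g (by omega)
  have h8 := allUpTo_spec _ _ h7 h (by omega)
  have : n - a - b - c - d - e - f - g - h = i := by omega
  rw [this] at h8
  simp only [r3, Bool.not_true, Bool.false_or] at h8
  exact h8

/-! ### the five checks -/

def allcl (a b c d e f g h i : ℕ) : Bool :=
  clB a d g && clB b e h && clB c f i &&
    clB a f h && clB b d i && clB c e g && clB a e i && clB d h c && clB g b f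

def allop (a b c d e f g h i : ℕ) : Bool :=
  opB a d g && opB b e h && opB c f i &&
    opB a f h && opB b d i && opB c e g && opB a e i && opB d h c && opB g b f

def all3 (s t u : ℕ) : Bool := decide (s = 3) && decide (t = 3) && decide (u = 3)

def n2 (s t u : ℕ) : ℕ := (if s = 2 then 1 else 0) + (if t = 2 then 1 else 0) + (if u = 2 then 1 else 0)

def PA (a b c d e f g h i : ℕ) : Bool := !(allcl a b c d e f g h i)

def PB (a b c d e f g h i : ℕ) : Bool := !(allop a b c d e f g h i) ||
  (decide (n2 (a+b+c) (d+e+f) (g+h+i) = 1) && decide (n2 (a+d+g) (b+e+h) (c+f+i) = 2))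

def PC (a b c d e f g h i : ℕ) : Bool := !(allcl a b c d e f g h i) ||
  all3 (a+b+c) (d+e+f) (g+h+i)

def PD (a b c d e f g h i : ℕ) : Bool := !(allop a b c d e f g h i) ||
  (decide (cost3 (a+b+c) (d+e+f) (g+h+i) ≤ 2) &&
   (decide (cost3 (a+b+c) (d+e+f) (g+h+i) ≠ 2) ||
    decide (cost3 (a+d+g) (b+e+h) (c+f+i) + cost3 (a+f+h) (b+d+i) (c+e+g) +
      cost3 (a+e+i) (d+h+c) (g+b+f) = 10)))

/-- rows: `cl`, columns: `ze` (zero row), the two others `cl` -/
def PE (a b c d e f g h i : ℕ) : Bool := !(zeB a d g && zeB b e h && zeB c f i &&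
    clB a f h && clB b d i && clB c e g && clB a e i && clB d h c && clB g b f) ||
  (!(all3 (a+d+g) (b+e+h) (c+f+i)) || all3 (a+b+c) (d+e+f) (g+h+i))

/-- rows: `cl`, columns: `ze`, `i + j`: `ze`, `i - j`: `cl` -/
def PF (a b c d e f g h i : ℕ) : Bool := !(zeB a d g && zeB b e h && zeB c f i &&
    zeB a f h && zeB b d i && zeB c e g && clB a e i && clB d h c && clB g b f) ||
  ((!(all3 (a+d+g) (b+e+h) (c+f+i) && all3 (a+f+h) (b+d+i) (c+e+g)) ||
      all3 (a+b+c) (d+e+f) (g+h+i)) &&
   (!(all3 (a+d+g) (b+e+h) (c+f+i) || all3 (a+f+h) (b+d+i) (c+e+g)) ||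
      decide (cost3 (a+b+c) (d+e+f) (g+h+i) ≤ 2)))

set_option maxRecDepth 100000 in
theorem chkA : chk 8 PA = true := by decide +kernel
set_option maxRecDepth 100000 in
theorem chkB : chk 8 PB = true := by decide +kernel
set_option maxRecDepth 100000 in
theorem chkC : chk 9 PC = true := by decide +kernel
set_option maxRecDepth 100000 in
theorem chkD : chk 9 PD = true := by decide +kernel
set_option maxRecDepth 100000 in
theorem chkE : chk 9 PE = true := by decide +kernel
set_option maxRecDepth 100000 in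
theorem chkF : chk 9 PF = true := by decide +kernel

end H40.S36
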