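import Pool.Agent.H40.S36.Def
import Pool.Agent.H40.S36.Fin

/-! The nine cells of a pair of light functionals (order 3^6, END). -/

namespace H40.S36

variable {V X D : Type*} [AddCommGroup D] {S : V → Finset X} {ev : D → X → ZMod 3}

/-- a fibre is the sum of its three cells -/
lemma fib_eq (S : V → Finset X) (ev : D → X → ZMod 3) (v : V) (x y : D) (c : ZMod 3) :
    fib S ev v x c = cell S ev v x y c 0 + cell S ev v x y c 1 + cell S ev v x y c 2 := by
  classical
  have h : (S v).filter (fun p => ev x p = c) =
      ((S v).filter (fun p => ev x p = c ∧ ev y p = 0) ∪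
        (S v).filter (fun p => ev x p = c ∧ ev y p = 1)) ∪
        (S v).filter (fun p => ev x p = c ∧ ev y p = 2) := by
    ext p
    have : ev y p = 0 ∨ ev y p = 1 ∨ ev y p = 2 := by
      generalize ev y p = t
      revert t; decide
    simp only [Finset.mem_filter, Finset.mem_union]
    tauto
  have h01 : (0 : ZMod 3) ≠ 1 := by decide
  have h02 : (0 : ZMod 3) ≠ 2 := by decide
  have h12 : (1 : ZMod 3) ≠ 2 := by decide
  unfold fib cell
  rw [h, Finset.card_union_of_disjoint, Finset.card_union_of_disjoint]
  · rw [Finset.disjoint_left]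
    intro p hp hq
    simp only [Finset.mem_filter] at hp hq
    exact h01 (hp.2.2.symm.trans hq.2.2)
  · rw [Finset.disjoint_left]
    intro p hp hq
    simp only [Finset.mem_filter, Finset.mem_union] at hp hq
    rcases hp with hp | hp
    · exact h02 (hp.2.2.symm.trans hq.2.2)
    · exact h12 (hp.2.2.symm.trans hq.2.2)

lemma cell_le_fib (S : V → Finset X) (ev : D → X → ZMod 3) (v : V) (x y : D) (c d : ZMod 3) :
    cell S ev v x y c d ≤ fib S ev v x c := by
  unfold cell fib
  apply Finset.card_le_card
  intro p hp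
  simp only [Finset.mem_filter] at hp ⊢
  exact ⟨hp.1, hp.2.1⟩

/-- the cell is the whole fibre iff `y` is constant there -/
lemma cell_eq_fib (S : V → Finset X) (ev : D → X → ZMod 3) (v : V) (x y : D) (c d : ZMod 3) :
    cell S ev v x y c d = fib S ev v x c ↔ ∀ p ∈ S v, ev x p = c → ev y p = d := by
  unfold cell fib
  constructor
  · intro h p hp hx
    have hsub : (S v).filter (fun p => ev x p = c ∧ ev y p = d) ⊆
        (S v).filter (fun p => ev x p = c) := by
      intro q hq
      simp only [Finset.mem_filter] at hq ⊢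
      exact ⟨hq.1, hq.2.1⟩
    have := Finset.eq_of_subset_of_card_le hsub (le_of_eq h.symm)
    have hp' : p ∈ (S v).filter (fun p => ev x p = c) := by
      simp only [Finset.mem_filter]; exact ⟨hp, hx⟩
    rw [← this] at hp'
    exact (Finset.mem_filter.1 hp').2.2
  · intro h
    congr 1
    ext p
    simp only [Finset.mem_filter]
    constructor
    · rintro ⟨h1, h2, _⟩; exact ⟨h1, h2⟩
    · rintro ⟨h1, h2⟩; exact ⟨h1, h2, h p h1 h2⟩

/-- the number of points of a slice is the sum of the three fibres -/
lemma card_eq (S : V → Finset X) (ev : D → X → ZMod 3) (v : V) (x : D) :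
    (S v).card = fib S ev v x 0 + fib S ev v x 1 + fib S ev v x 2 := by
  classical
  have h : S v =
      ((S v).filter (fun p => ev x p = 0) ∪
        (S v).filter (fun p => ev x p = 1)) ∪
        (S v).filter (fun p => ev x p = 2) := by
    ext p
    have : ev x p = 0 ∨ ev x p = 1 ∨ ev x p = 2 := by
      generalize ev x p = t
      revert t; decide
    simp only [Finset.mem_filter, Finset.mem_union]
    tauto
  have h01 : (0 : ZMod 3) ≠ 1 := by decide
  have h02 : (0 : ZMod 3) ≠ 2 := by decide
  have h12 : (1 : ZMod 3) ≠ 2 := by decide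
  unfold fib
  conv_lhs => rw [h]
  rw [Finset.card_union_of_disjoint, Finset.card_union_of_disjoint]
  · rw [Finset.disjoint_left]
    intro p hp hq
    simp only [Finset.mem_filter] at hp hq
    exact h01 (hp.2.symm.trans hq.2)
  · rw [Finset.disjoint_left]
    intro p hp hq
    simp only [Finset.mem_filter, Finset.mem_union] at hp hq
    rcases hp with hp | hp
    · exact h02 (hp.2.symm.trans hq.2)
    · exact h12 (hp.2.symm.trans hq.2)

lemma cell_swap (S : V → Finset X) (ev : D → X → ZMod 3) (v : V) (x y : D) (c d : ZMod 3) :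
    cell S ev v x y c d = cell S ev v y x d c := by
  unfold cell
  congr 1
  ext p
  simp only [Finset.mem_filter]
  tauto

lemma cell_add (hev : ∀ x y p, ev (x + y) p = ev x p + ev y p) (v : V) (l m : D)
    (s i : ZMod 3) :
    cell S ev v (m + l) l s i = cell S ev v l m i (s - i) := by
  unfold cell
  congr 1
  ext p
  simp only [Finset.mem_filter, hev]
  constructor
  · rintro ⟨h1, h2, h3⟩
    refine ⟨h1, h3, ?_⟩
    rw [← h2, ← h3]; ring
  · rintro ⟨h1, h2, h3⟩
    refine ⟨h1, ?_, h2⟩
    rw [h2, h3]; ring

lemma ev_sub (hev : ∀ x y p, ev (x + y) p = ev x p + ev y p) (x y : D) (p : X) :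
    ev (x - y) p = ev x p - ev y p := by
  have := hev (x - y) y p
  rw [sub_add_cancel] at this
  rw [this]; ring

lemma cell_sub (hev : ∀ x y p, ev (x + y) p = ev x p + ev y p) (v : V) (l m : D)
    (s i : ZMod 3) :
    cell S ev v (m - l) l s i = cell S ev v l m i (s + i) := by
  unfold cell
  congr 1
  ext p
  simp only [Finset.mem_filter, ev_sub hev]
  constructor
  · rintro ⟨h1, h2, h3⟩
    refine ⟨h1, h3, ?_⟩
    rw [← h2, ← h3]; ring
  · rintro ⟨h1, h2, h3⟩
    refine ⟨h1, ?_, h2⟩
    rw [h2, h3]; ring

end H40.S36
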