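import Pool.Agent.H40.S36.Pack

/-! Costs of a functional (order 3^6, END). -/

namespace H40.S36

open Finset

variable {V X D : Type*} [Fintype V] [AddCommGroup D] {S : V → Finset X} {ev : D → X → ZMod 3}
  {Φ : D → D → D → D → ZMod 3} {D1 : AddSubgroup D}

lemma cost_add (s : ℕ) : cost s + 6 * s = s * s + 9 := by
  unfold cost
  have : 6 * s ≤ s * s + 9 := by
    zify
    nlinarith [sq_nonneg ((s : ℤ) - 3)]
  omega

lemma sum_zmod3 (f : ZMod 3 → ℕ) : ∑ c, f c = f 0 + f 1 + f 2 := Fin.sum_univ_three f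

/-- cost of `x` in the slice `v` -/
def cst (S : V → Finset X) (ev : D → X → ZMod 3) (v : V) (x : D) : ℕ :=
  cost3 (fib S ev v x 0 / 3) (fib S ev v x 1 / 3) (fib S ev v x 2 / 3)

lemma cst_eq (h : Hyp S ev Φ D1) (v : V) (x : D) :
    9 * cst S ev v x + 18 * (S v).card = ∑ c, fib S ev v x c ^ 2 + 243 := by
  obtain ⟨a, ha⟩ := h.fib3 v x 0
  obtain ⟨b, hb⟩ := h.fib3 v x 1
  obtain ⟨e, he⟩ := h.fib3 v x 2
  rw [sum_zmod3, card_eq S ev v x, cst, cost3, ha, hb, he]
  have e1 : 3 * a / 3 = a := by omega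
  have e2 : 3 * b / 3 = b := by omega
  have e3 : 3 * e / 3 = e := by omega
  rw [e1, e2, e3]
  have h1 := cost_add a
  have h2 := cost_add b
  have h3 := cost_add e
  nlinarith [h1, h2, h3]

lemma sum_cst27 (h : Hyp S ev Φ D1) (hV : Fintype.card V = 27) (h27 : ∀ v, (S v).card = 27)
    (x : D) (hsq : ∑ v, ∑ c, fib S ev v x c ^ 2 = 7047) : ∑ v, cst S ev v x = 54 := by
  have h1 : ∑ v, (9 * cst S ev v x + 18 * (S v).card) =
      ∑ v, (∑ c, fib S ev v x c ^ 2 + 243) := Finset.sum_congr rfl (fun v _ => cst_eq h v x)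
  rw [Finset.sum_add_distrib, Finset.sum_add_distrib, hsq, ← Finset.mul_sum, ← Finset.mul_sum] at h1
  simp only [h27, Finset.sum_const, Finset.card_univ, hV, smul_eq_mul] at h1
  omega

lemma sum_cst_le (h : Hyp S ev Φ D1) (hV : Fintype.card V = 27) (hS : ∑ v, (S v).card = 729)
    (x : D) (hsq : ∑ v, ∑ c, fib S ev v x c ^ 2 ≤ 7263) : ∑ v, cst S ev v x ≤ 78 := by
  have h1 : ∑ v, (9 * cst S ev v x + 18 * (S v).card) =
      ∑ v, (∑ c, fib S ev v x c ^ 2 + 243) := Finset.sum_congr rfl (fun v _ => cst_eq h v x)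
  rw [Finset.sum_add_distrib, Finset.sum_add_distrib, ← Finset.mul_sum, ← Finset.mul_sum, hS] at h1
  simp only [Finset.sum_const, Finset.card_univ, hV, smul_eq_mul] at h1
  omega

/-- the slices where `x` has a six-point fibre -/
noncomputable def B6 (S : V → Finset X) (ev : D → X → ZMod 3) (x : D) : Finset V := by
  classical exact univ.filter (fun v => ∃ c, fib S ev v x c = 6)

lemma mem_B6 (v : V) (x : D) : v ∈ B6 S ev x ↔ ∃ c, fib S ev v x c = 6 := by
  classical
  unfold B6
  simp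

lemma card_B6 (h : Hyp S ev Φ D1) (x : D) (hx : x ∉ D1) (hz : ¬ NZ Φ x) :
    (B6 S ev x).card ≤ 2 := by
  classical
  refine le_trans ?_ (h.six0 x hx hz)
  have : B6 S ev x ⊆ ((Finset.univ : Finset (V × ZMod 3)).filter
      (fun q => fib S ev q.1 x q.2 = 6)).image Prod.fst := by
    intro v hv
    obtain ⟨c, hc⟩ := (mem_B6 v x).1 hv
    exact Finset.mem_image.2 ⟨(v, c), by simp [hc], rfl⟩
  exact le_trans (Finset.card_le_card this) Finset.card_image_le

/-- the slices where `x` is not `9, 9, 9` -/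
noncomputable def Wn (S : V → Finset X) (ev : D → X → ZMod 3) (x : D) : Finset V := by
  classical exact univ.filter (fun v => ¬ (fib S ev v x 0 = 9 ∧ fib S ev v x 1 = 9 ∧ fib S ev v x 2 = 9))

lemma mem_Wn (v : V) (x : D) : v ∈ Wn S ev x ↔
    ¬ (fib S ev v x 0 = 9 ∧ fib S ev v x 1 = 9 ∧ fib S ev v x 2 = 9) := by
  classical
  unfold Wn
  simp

lemma cost3_ge (a b e : ℕ) (hs : a + b + e = 9) (h0 : a = 0 ∨ b = 0 ∨ e = 0) :
    14 ≤ cost3 a b e := by
  have ha : a ≤ 9 := by omega
  have hb : b ≤ 9 := by omega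
  have he : e = 9 - a - b := by omega
  subst he
  unfold cost3 cost
  interval_cases a <;> interval_cases b <;> simp_all

lemma cost3_le6 (a b e : ℕ) (hs : a + b + e = 9) (h1 : 2 ≤ a) (h2 : 2 ≤ b) (h3 : 2 ≤ e) :
    cost3 a b e ≤ 6 := by
  have ha : a ≤ 9 := by omega
  have hb : b ≤ 9 := by omega
  have he : e = 9 - a - b := by omega
  subst he
  unfold cost3 cost
  interval_cases a <;> interval_cases b <;> first | omega | simp_all

lemma cost3_24 (a b e : ℕ) (hs : a + b + e = 8) (h1 : a ≠ 1 ∧ b ≠ 1 ∧ e ≠ 1)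
    (h2 : a ≠ 2 ∧ b ≠ 2 ∧ e ≠ 2) : 11 ≤ cost3 a b e := by
  have ha : a ≤ 8 := by omega
  have hb : b ≤ 8 := by omega
  have he : e = 8 - a - b := by omega
  subst he
  unfold cost3 cost
  interval_cases a <;> interval_cases b <;> first | omega | simp_all

/-- a zero row is `9, 9, 9` in all but five slices -/
lemma card_Wn (h : Hyp S ev Φ D1) (h27 : ∀ v, (S v).card = 27) (x : D) (hx : x ∉ D1)
    (hz : ¬ NZ Φ x) (hc : ∑ v, cst S ev v x = 54) : (Wn S ev x).card ≤ 5 := by
  classical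
  set A : Finset V := univ.filter (fun v => ∃ c, fib S ev v x c = 0) with hA
  have hsub : Wn S ev x ⊆ A ∪ B6 S ev x := by
    intro v hv
    rw [mem_Wn] at hv
    rw [Finset.mem_union, mem_B6, hA, Finset.mem_filter]
    by_contra hcon
    push Not at hcon
    obtain ⟨h1, h2⟩ := hcon
    have h1' := h1 (Finset.mem_univ v)
    have hs := card_eq S ev v x
    rw [h27 v] at hs
    have a0 := h1' 0
    have a1 := h1' 1
    have a2 := h1' 2
    have b0 := h2 0
    have b1 := h2 1
    have b2 := h2 2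
    have c0 := h.fibne v x 0
    have c1 := h.fibne v x 1
    have c2 := h.fibne v x 2
    have d0 := h.fib3 v x 0
    have d1 := h.fib3 v x 1
    have d2 := h.fib3 v x 2
    apply hv
    omega
  have hA3 : A.card ≤ 3 := by
    have h1 : ∑ v ∈ A, 14 ≤ ∑ v ∈ A, cst S ev v x := by
      apply Finset.sum_le_sum
      intro v hv
      rw [hA, Finset.mem_filter] at hv
      obtain ⟨_, c, hc⟩ := hv
      obtain ⟨a, ha⟩ := h.fib3 v x 0
      obtain ⟨b, hb⟩ := h.fib3 v x 1
      obtain ⟨e, he⟩ := h.fib3 v x 2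
      have hs := card_eq S ev v x
      rw [h27 v] at hs
      unfold cst
      apply cost3_ge
      · omega
      · rcases zmod3_cases c with rfl | rfl | rfl
        · left; omega
        · right; left; omega
        · right; right; omega
    have h2 : ∑ v ∈ A, cst S ev v x ≤ ∑ v, cst S ev v x :=
      Finset.sum_le_sum_of_subset (Finset.subset_univ A)
    rw [Finset.sum_const, smul_eq_mul] at h1
    omega
  have := Finset.card_le_card hsub
  have h2 := Finset.card_union_le A (B6 S ev x)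
  have h3 := card_B6 h x hx hz
  omega

end H40.S36
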