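import Pool.Agent.H40.S36.Arr

/-! The four directions of a radical line (order 3^6, END). -/

namespace H40.S36

variable {V X D : Type*} [Fintype V] [AddCommGroup D] {S : V → Finset X} {ev : D → X → ZMod 3}
  {Φ : D → D → D → D → ZMod 3} {D1 : AddSubgroup D}

lemma zmod3_cases (d : ZMod 3) : d = 0 ∨ d = 1 ∨ d = 2 := by revert d; decide

lemma rowcl (h : Hyp S ev Φ D1) (v : V) (x y : D) (hx : NZ Φ x) (hy : Rad Φ x y) (c : ZMod 3)
    (hd : ∀ d, 3 ∣ cell S ev v x y c d) :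
    cl (cell S ev v x y c 0 / 3) (cell S ev v x y c 1 / 3) (cell S ev v x y c 2 / 3) := by
  obtain ⟨a, ha⟩ := hd 0
  obtain ⟨b, hb⟩ := hd 1
  obtain ⟨e, he⟩ := hd 2
  have hf := fib_eq S ev v x y c
  have h0 := h.empt v x c hx
  have h3 := h.fibne v x c
  have hc : fib S ev v x c = 6 → cell S ev v x y c 0 = 6 ∨ cell S ev v x y c 1 = 6 ∨
      cell S ev v x y c 2 = 6 := by
    intro h6
    obtain ⟨d, hd'⟩ := (h.six v x c hx h6 y).2 hy
    have hc := (cell_eq_fib S ev v x y c d).2 hd'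
    rw [h6] at hc
    rcases zmod3_cases d with rfl | rfl | rfl
    · left; exact hc
    · right; left; exact hc
    · right; right; exact hc
  rw [ha, hb, he] at hc
  rw [ha, hb, he] at hf
  rw [ha, hb, he]
  have e1 : 3 * a / 3 = a := by omega
  have e2 : 3 * b / 3 = b := by omega
  have e3 : 3 * e / 3 = e := by omega
  rw [e1, e2, e3]
  refine ⟨by omega, fun hs => ?_⟩
  have h6 : fib S ev v x c = 6 := by omega
  rcases hc h6 with h7 | h7 | h7
  · left; omega
  · right; left; omega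
  · right; right; omega

lemma rowop (h : Hyp S ev Φ D1) (v : V) (x y : D) (hx : NZ Φ x) (hy : ¬ Rad Φ x y) (c : ZMod 3)
    (hd : ∀ d, 3 ∣ cell S ev v x y c d) :
    op (cell S ev v x y c 0 / 3) (cell S ev v x y c 1 / 3) (cell S ev v x y c 2 / 3) := by
  obtain ⟨a, ha⟩ := hd 0
  obtain ⟨b, hb⟩ := hd 1
  obtain ⟨e, he⟩ := hd 2
  have hf := fib_eq S ev v x y c
  have h0 := h.empt v x c hx
  have h3 := h.fibne v x c
  have hc : ∀ d, cell S ev v x y c d = fib S ev v x c → fib S ev v x c = 6 → False := by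
    intro d hcd h6
    exact hy ((h.six v x c hx h6 y).1 ⟨d, (cell_eq_fib S ev v x y c d).1 hcd⟩)
  have hc0 := hc 0
  have hc1 := hc 1
  have hc2 := hc 2
  rw [ha] at hc0
  rw [hb] at hc1
  rw [he] at hc2
  rw [ha, hb, he] at hf
  rw [ha, hb, he]
  have e1 : 3 * a / 3 = a := by omega
  have e2 : 3 * b / 3 = b := by omega
  have e3 : 3 * e / 3 = e := by omega
  rw [e1, e2, e3]
  refine ⟨by omega, fun hs => ?_⟩
  rintro (h2 | h2 | h2)
  · exact hc0 (by omega) (by omega)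
  · exact hc1 (by omega) (by omega)
  · exact hc2 (by omega) (by omega)

lemma rowze (h : Hyp S ev Φ D1) (v : V) (x y : D) (c : ZMod 3)
    (hd : ∀ d, 3 ∣ cell S ev v x y c d) :
    ze (cell S ev v x y c 0 / 3) (cell S ev v x y c 1 / 3) (cell S ev v x y c 2 / 3) := by
  obtain ⟨a, ha⟩ := hd 0
  obtain ⟨b, hb⟩ := hd 1
  obtain ⟨e, he⟩ := hd 2
  have hf := fib_eq S ev v x y c
  have h3 := h.fibne v x c
  rw [ha, hb, he] at hf
  rw [ha, hb, he]
  have e1 : 3 * a / 3 = a := by omega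
  have e2 : 3 * b / 3 = b := by omega
  have e3 : 3 * e / 3 = e := by omega
  rw [e1, e2, e3]
  intro hs
  omega

/-! ### Consequences of the symmetry of `Φ` -/

lemma phi_cube' (h : Hyp S ev Φ D1) (a b : D) : Φ a a b a = 0 := by
  rw [h.s34]; exact h.cube a b

lemma phi_mmll (h : Hyp S ev Φ D1) {l m : D} (hm : Rad Φ l m) : Φ m m l l = 0 := by
  rw [h.s23, h.s12, h.s34, h.s23]; exact hm m

lemma phi_lml (h : Hyp S ev Φ D1) {l m : D} (hm : Rad Φ l m) (z : D) : Φ l m l z = 0 := by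
  rw [h.s23]; exact hm z

lemma phi_mll (h : Hyp S ev Φ D1) {l m : D} (hm : Rad Φ l m) (z : D) : Φ m l l z = 0 := by
  rw [h.s12]; exact phi_lml h hm z

lemma add2 (h : Hyp S ev Φ D1) (a b c d e : D) : Φ c (a + b) d e = Φ c a d e + Φ c b d e := by
  rw [h.s12, h.add1, h.s12 a, h.s12 b]

lemma phi_zero1 (h : Hyp S ev Φ D1) (c d e : D) : Φ 0 c d e = 0 := by
  have := h.add1 0 0 c d e
  rw [add_zero] at this
  have h2 : Φ 0 c d e + 0 = Φ 0 c d e + Φ 0 c d e := by rw [add_zero]; exact this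
  exact (add_left_cancel h2).symm

lemma phi_neg1 (h : Hyp S ev Φ D1) (a c d e : D) : Φ (-a) c d e = - Φ a c d e := by
  have := h.add1 a (-a) c d e
  rw [add_neg_cancel, phi_zero1 h] at this
  exact (neg_eq_of_add_eq_zero_right this.symm).symm

lemma sub1 (h : Hyp S ev Φ D1) (a b c d e : D) : Φ (a - b) c d e = Φ a c d e - Φ b c d e := by
  rw [sub_eq_add_neg, h.add1, phi_neg1 h]; ring

lemma sub2 (h : Hyp S ev Φ D1) (a b c d e : D) : Φ c (a - b) d e = Φ c a d e - Φ c b d e := by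
  rw [h.s12, sub1 h, h.s12 a, h.s12 b]

lemma neg2 (h : Hyp S ev Φ D1) (a c d e : D) : Φ c (-a) d e = - Φ c a d e := by
  rw [h.s12, phi_neg1 h, h.s12 a]

/-- the row of `m + l` at `l` -/
lemma row_add (h : Hyp S ev Φ D1) {l m : D} (hm : Rad Φ l m) (z : D) :
    Φ (m + l) (m + l) l z = Φ m m l z := by
  rw [h.add1, add2 h, add2 h, h.cube, phi_mll h hm, phi_lml h hm]; ring

lemma row_sub (h : Hyp S ev Φ D1) {l m : D} (hm : Rad Φ l m) (z : D) :
    Φ (m - l) (m - l) l z = Φ m m l z := by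
  rw [sub1 h, sub2 h, sub2 h, h.cube, phi_mll h hm, phi_lml h hm]; ring

/-- sum of the four rows of a line -/
lemma four_rows (h : Hyp S ev Φ D1) (l m y z : D) :
    Φ l l y z + Φ m m y z + Φ (m + l) (m + l) y z + Φ (m - l) (m - l) y z = 0 := by
  rw [h.add1, add2 h, add2 h, sub1 h, sub2 h, sub2 h, h.s12 l m]
  have h3 : (3 : ZMod 3) = 0 := by decide
  linear_combination (Φ l l y z + Φ m m y z) * h3

end H40.S36
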