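import Pool.Agent.H40.S36.Lin

/-! The nine numbers of a radical line in a slice (order 3^6, END). -/

namespace H40.S36

variable {V X D : Type*} [Fintype V] [AddCommGroup D] {S : V → Finset X} {ev : D → X → ZMod 3}
  {Φ : D → D → D → D → ZMod 3} {D1 : AddSubgroup D}

/-- what is known on the three fibres of `x` cut by `y` -/
structure Tri (Φ : D → D → D → D → ZMod 3) (x y : D) (p q r s t u v w z : ℕ) : Prop where
  hcl : NZ Φ x → Rad Φ x y → cl p q r ∧ cl s t u ∧ cl v w z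
  hop : NZ Φ x → ¬ Rad Φ x y → op p q r ∧ op s t u ∧ op v w z
  hze : ze p q r ∧ ze s t u ∧ ze v w z

lemma tri_of (h : Hyp S ev Φ D1) (v : V) (x y : D) (hd : ∀ c d, 3 ∣ cell S ev v x y c d) :
    Tri Φ x y (cell S ev v x y 0 0 / 3) (cell S ev v x y 0 1 / 3) (cell S ev v x y 0 2 / 3)
      (cell S ev v x y 1 0 / 3) (cell S ev v x y 1 1 / 3) (cell S ev v x y 1 2 / 3)
      (cell S ev v x y 2 0 / 3) (cell S ev v x y 2 1 / 3) (cell S ev v x y 2 2 / 3) where
  hcl := fun hx hy => ⟨rowcl h v x y hx hy 0 (hd 0), rowcl h v x y hx hy 1 (hd 1),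
    rowcl h v x y hx hy 2 (hd 2)⟩
  hop := fun hx hy => ⟨rowop h v x y hx hy 0 (hd 0), rowop h v x y hx hy 1 (hd 1),
    rowop h v x y hx hy 2 (hd 2)⟩
  hze := ⟨rowze h v x y 0 (hd 0), rowze h v x y 1 (hd 1), rowze h v x y 2 (hd 2)⟩

lemma fib_three (v : V) (x y : D) (hd : ∀ c d, 3 ∣ cell S ev v x y c d) (c : ZMod 3) :
    fib S ev v x c = 3 * (cell S ev v x y c 0 / 3 + cell S ev v x y c 1 / 3 +
      cell S ev v x y c 2 / 3) := by
  have := fib_eq S ev v x y c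
  have h0 := hd c 0
  have h1 := hd c 1
  have h2 := hd c 2
  omega

/-- the array of a radical line in the slice `v` -/
theorem arr (h : Hyp S ev Φ D1) {l m : D} (hm : Rad Φ l m) (v : V) :
    ∃ a b c d e f g hh i : ℕ,
      (fib S ev v l 0 = 3 * (a + b + c) ∧ fib S ev v l 1 = 3 * (d + e + f) ∧
        fib S ev v l 2 = 3 * (g + hh + i)) ∧
      (fib S ev v m 0 = 3 * (a + d + g) ∧ fib S ev v m 1 = 3 * (b + e + hh) ∧
        fib S ev v m 2 = 3 * (c + f + i)) ∧
      (fib S ev v (m + l) 0 = 3 * (a + f + hh) ∧ fib S ev v (m + l) 1 = 3 * (b + d + i) ∧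
        fib S ev v (m + l) 2 = 3 * (c + e + g)) ∧
      (fib S ev v (m - l) 0 = 3 * (a + e + i) ∧ fib S ev v (m - l) 1 = 3 * (b + f + g) ∧
        fib S ev v (m - l) 2 = 3 * (c + d + hh)) ∧
      Tri Φ l m a b c d e f g hh i ∧ Tri Φ m l a d g b e hh c f i ∧
      Tri Φ (m + l) l a f hh b d i c e g ∧ Tri Φ (m - l) l a e i b f g c d hh := by
  have hd : ∀ i j, 3 ∣ cell S ev v l m i j := fun i j => h.cell3 v l m i j (hm m)
  have hd2 : ∀ i j, 3 ∣ cell S ev v m l i j := fun i j => by rw [cell_swap]; exact hd j i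
  have hd3 : ∀ i j, 3 ∣ cell S ev v (m + l) l i j := fun i j => by
    rw [cell_add h.ev_add]; exact hd _ _
  have hd4 : ∀ i j, 3 ∣ cell S ev v (m - l) l i j := fun i j => by
    rw [cell_sub h.ev_add]; exact hd _ _
  have t1 := tri_of h v l m hd
  have t2 := tri_of h v m l hd2
  have t3 := tri_of h v (m + l) l hd3
  have t4 := tri_of h v (m - l) l hd4
  have f1 := fib_three v l m hd
  have f2 := fib_three v m l hd2
  have f3 := fib_three v (m + l) l hd3
  have f4 := fib_three v (m - l) l hd4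
  simp only [cell_swap S ev v m l] at t2 f2
  simp only [cell_add h.ev_add v l m] at t3 f3
  simp only [cell_sub h.ev_add v l m] at t4 f4
  have z1 : (0 - 1 : ZMod 3) = 2 := by decide
  have z2 : (0 - 2 : ZMod 3) = 1 := by decide
  have z3 : (1 - 1 : ZMod 3) = 0 := by decide
  have z4 : (1 - 2 : ZMod 3) = 2 := by decide
  have z5 : (2 - 1 : ZMod 3) = 1 := by decide
  have z6 : (2 - 2 : ZMod 3) = 0 := by decide
  have z7 : (0 - 0 : ZMod 3) = 0 := by decide
  have z8 : (1 - 0 : ZMod 3) = 1 := by decide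
  have z9 : (2 - 0 : ZMod 3) = 2 := by decide
  have w1 : (0 + 1 : ZMod 3) = 1 := by decide
  have w2 : (0 + 2 : ZMod 3) = 2 := by decide
  have w3 : (1 + 1 : ZMod 3) = 2 := by decide
  have w4 : (1 + 2 : ZMod 3) = 0 := by decide
  have w5 : (2 + 1 : ZMod 3) = 0 := by decide
  have w6 : (2 + 2 : ZMod 3) = 1 := by decide
  have w7 : (0 + 0 : ZMod 3) = 0 := by decide
  have w8 : (1 + 0 : ZMod 3) = 1 := by decide
  have w9 : (2 + 0 : ZMod 3) = 2 := by decide
  have f30 := f3 0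
  have f31 := f3 1
  have f32 := f3 2
  have f40 := f4 0
  have f41 := f4 1
  have f42 := f4 2
  rw [z1, z2, z7] at f30
  rw [z3, z4, z8] at f31
  rw [z5, z6, z9] at f32
  rw [w1, w2, w7] at f40
  rw [w3, w4, w8] at f41
  rw [w5, w6, w9] at f42
  rw [z1, z2, z3, z4, z5, z6, z7, z8, z9] at t3
  rw [w1, w2, w3, w4, w5, w6, w7, w8, w9] at t4
  exact ⟨_, _, _, _, _, _, _, _, _, ⟨f1 0, f1 1, f1 2⟩, ⟨f2 0, f2 1, f2 2⟩, ⟨f30, f31, f32⟩,
    ⟨f40, f41, f42⟩, t1, t2, t3, t4⟩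

end H40.S36
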